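import Mathlib

set_option autoImplicit false

open Set Filter Topology TopologicalSpace Metric

namespace Pool.Agent.H.MP_a3a891_gt

section
variable {X : Type} [TopologicalSpace X]

lemma cc {W : Set X} (hW : IsClosed W) (x : X) : IsClosed (connectedComponentIn W x) := by
  by_cases hx : x ∈ W
  · rw [connectedComponentIn_eq_image hx]
    exact hW.isClosedMap_subtype_val _ isClosed_connectedComponent
  · rw [connectedComponentIn_eq_empty hx]
    exact isClosed_empty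

variable [CompactSpace X] [T2Space X]

/-- boundary bumping -/
lemma bb {C W N : Set X} {x : X} (h1 : IsClosed C) (h2 : IsPreconnected C) (hW : IsClosed W)
    (hN : IsOpen N) (h3 : N ⊆ W) (hx : x ∈ C ∩ W) (h4 : ¬ C ⊆ N) :
    ¬ connectedComponentIn (C ∩ W) x ⊆ N := fun h => by
  have hZ := h1.inter hW
  have := isCompact_iff_compactSpace.1 hZ.isCompact
  rw [connectedComponentIn_eq_image hx, image_subset_iff,
    connectedComponent_eq_iInter_isClopen] at h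
  have : Nonempty {s : Set (C ∩ W : Set X) // IsClopen s ∧ ⟨x, hx⟩ ∈ s} :=
    ⟨⟨univ, isClopen_univ, trivial⟩⟩
  obtain ⟨⟨D, d1, d2⟩, d3⟩ := exists_subset_nhds_of_compactSpace (U := Subtype.val ⁻¹' N)
    (V := fun s : {s : Set (C ∩ W : Set X) // IsClopen s ∧ ⟨x, hx⟩ ∈ s} => s.1)
    (fun s t => ⟨⟨s.1 ∩ t.1, s.2.1.inter t.2.1, s.2.2, t.2.2⟩,
      inter_subset_left, inter_subset_right⟩) (fun s => s.2.1.1)
    fun z hz => (hN.preimage continuous_subtype_val).mem_nhds (h hz)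
  obtain ⟨u, hu, rfl⟩ := isOpen_induced_iff.1 d1.2
  obtain ⟨r, hr, hr'⟩ := not_subset.1 h4
  obtain ⟨_, -, ⟨z, hz, rfl⟩, hz'⟩ := isPreconnected_closed_iff.1 h2 _ _
    (hZ.isClosedMap_subtype_val _ d1.1) (hu.inter hN).isClosed_compl
    (fun z hz => (em _).imp_left fun h => ⟨⟨z, hz, h3 h.2⟩, h.1, rfl⟩)
    ⟨x, hx.1, _, d2, rfl⟩ ⟨r, hr, fun h => hr' h.2⟩
  exact hz' ⟨hz, d3 hz⟩

/-- Sierpinski's theorem on countable closed partitions of continua -/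
lemma sier {ι : Type} [Countable ι] [Nonempty ι] {C : Set X} (h1 : IsClosed C)
    (h2 : IsPreconnected C) (f : ι → Set X) (hf : ∀ n, IsClosed (f n))
    (hd : ∀ i j, (f i ∩ f j).Nonempty → f i = f j) (hc : C ⊆ ⋃ n, f n) : ∃ n, C ⊆ f n := by
  by_contra! h
  obtain ⟨e, he⟩ := exists_surjective_nat ι
  let P := {D : Set X // IsClosed D ∧ IsPreconnected D ∧ D ⊆ C ∧ ∀ n, ¬ D ⊆ f n}
  have : ∀ (D : P) n, ∃ E : P, E.1 ⊆ D.1 ∧ Disjoint E.1 (f n) := fun ⟨D, d1, d2, d3, d4⟩ n => by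
    by_cases h0 : Disjoint D (f n)
    · exact ⟨⟨D, d1, d2, d3, d4⟩, Subset.rfl, h0⟩
    obtain ⟨x, x1, x2⟩ := not_subset.1 (d4 n)
    obtain ⟨j, hj⟩ := mem_iUnion.1 (hc (d3 x1))
    obtain ⟨N, n1, n2, n3⟩ := (hf j).isCompact.exists_isOpen_closure_subset
      ((hf n).isOpen_compl.mem_nhdsSet.2 fun z hz hz' => x2 (hd j n ⟨z, hz, hz'⟩ ▸ hj))
    have hx : x ∈ D ∩ closure N := ⟨x1, subset_closure (n2 hj)⟩
    have s := connectedComponentIn_subset (D ∩ closure N) x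
    refine ⟨⟨_, cc (d1.inter isClosed_closure) x, isPreconnected_connectedComponentIn,
      fun z hz => d3 (s hz).1, fun m hm => bb d1 d2 isClosed_closure n1 subset_closure hx
        (fun h => h0 (disjoint_left.2 fun z hz => n3 (subset_closure (h hz)))) ?_⟩,
      fun z hz => (s hz).1, disjoint_left.2 fun z hz => n3 (s hz).2⟩
    exact hm.trans (hd j m ⟨x, hj, hm (mem_connectedComponentIn hx)⟩ ▸ n2)
  choose g g1 g2 using this
  let D : ℕ → P := fun n => Nat.rec ⟨C, h1, h2, Subset.rfl, h⟩ (fun k D => g D (e k)) n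
  obtain ⟨z, hz⟩ := IsCompact.nonempty_iInter_of_sequence_nonempty_isCompact_isClosed
    (fun n => (D n).1) (fun n => g1 _ _) (fun n => nonempty_iff_ne_empty.2 fun h0 =>
      (D n).2.2.2.2 (e 0) (h0 ▸ empty_subset _)) h1.isCompact fun n => (D n).2.1
  obtain ⟨j, hj⟩ := mem_iUnion.1 (hc (mem_iInter.1 hz 0))
  obtain ⟨n, rfl⟩ := he j
  exact disjoint_left.1 (g2 (D n) (e n)) (mem_iInter.1 hz (n + 1)) hj

end

/-- an open arc that is dense in `C` and cut out by a coordinate -/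
lemma key {C : Set (ℝ × ℝ)} {φ : ℝ × ℝ → ℝ} (hφ : Continuous φ) {h : ℝ → ℝ × ℝ} {a b : ℝ}
    (hab : a < b) (hc : ContinuousOn h (Ioo a b)) (hφh : ∀ s, φ (h s) = s)
    (hC : C ∩ φ ⁻¹' Ioo a b = h '' Ioo a b) (hd : C ⊆ closure (h '' Ioo a b))
    (𝓕 : Set (Set (ℝ × ℝ))) (h1 : 𝓕.Countable) (h2 : 𝓕.PairwiseDisjoint id)
    (h3 : ∀ F ∈ 𝓕, IsClosed F ∧ F ⊆ C ∧ F ≠ C) :
    ¬ {p ∈ C | ∃ V, IsOpen V ∧ p ∈ V ∧
      ¬ IsPreconnected (connectedComponentIn (C ∩ V) p \ {p})} ⊆ ⋃₀ 𝓕 := by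
  intro hL
  have hpre : IsPreconnected (h '' Ioo a b) := isPreconnected_Ioo.image _ hc
  have hcov : ∀ t ∈ Ioo a b, ∃ F ∈ 𝓕, h t ∈ F := by
    intro t ht
    have hm : h t ∈ C ∩ φ ⁻¹' Ioo a b := hC ▸ mem_image_of_mem h ht
    refine hL ⟨hm.1, φ ⁻¹' Ioo a b, isOpen_Ioo.preimage hφ, hm.2, fun hp => ?_⟩
    rw [hC, hpre.connectedComponentIn (mem_image_of_mem h ht)] at hp
    have hq := hp.image φ hφ.continuousOn
    have hne : ∀ s ∈ Ioo a b, s ≠ t → s ∈ φ '' (h '' Ioo a b \ {h t}) := fun s hs hst =>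
      ⟨h s, ⟨mem_image_of_mem h hs, fun e => hst (by
        have := congrArg φ (mem_singleton_iff.1 e); rwa [hφh, hφh] at this)⟩, hφh s⟩
    obtain ⟨u, hu1, hu2⟩ := exists_between ht.1
    obtain ⟨v, hv1, hv2⟩ := exists_between ht.2
    obtain ⟨_, ⟨⟨s, -, rfl⟩, hs2⟩, hs3⟩ := hq.Icc_subset (hne u ⟨hu1, hu2.trans ht.2⟩ hu2.ne)
      (hne v ⟨ht.1.trans hv1, hv2⟩ hv1.ne') ⟨hu2.le, hv1.le⟩
    rw [hφh] at hs3
    exact hs2 (by rw [hs3]; rfl)
  obtain ⟨t0, ht0⟩ := exists_between hab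
  obtain ⟨F0, hF0, hF0'⟩ := hcov t0 ht0
  have : Countable 𝓕 := h1.to_subtype
  have : Nonempty 𝓕 := ⟨⟨F0, hF0⟩⟩
  have hall : ∀ t ∈ Ioo a b, h t ∈ F0 := by
    intro t ht
    have hsub : uIcc t0 t ⊆ Ioo a b := ordConnected_Ioo.uIcc_subset ht0 ht
    have : CompactSpace (uIcc t0 t) := isCompact_iff_compactSpace.1 isCompact_uIcc
    have : PreconnectedSpace (uIcc t0 t) := isPreconnected_iff_preconnectedSpace.1 isPreconnected_uIcc
    have hcc : Continuous fun s : uIcc t0 t => h s := (hc.mono hsub).restrict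
    obtain ⟨F, hF⟩ := sier (X := uIcc t0 t) isClosed_univ isPreconnected_univ
      (fun F : 𝓕 => (fun s : uIcc t0 t => h s) ⁻¹' F.1)
      (fun F => (h3 F.1 F.2).1.preimage hcc)
      (fun F G ⟨s, hs1, hs2⟩ => by
        have : F.1 = G.1 := by
          by_contra hne
          exact disjoint_left.1 (h2 F.2 G.2 hne) hs1 hs2
        rw [this])
      (fun s _ => by
        obtain ⟨F, hF, hF'⟩ := hcov s (hsub s.2)
        exact mem_iUnion.2 ⟨⟨F, hF⟩, hF'⟩)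
    have e : F.1 = F0 := by
      by_contra hne
      have hm : h t0 ∈ F.1 := hF (mem_univ (⟨t0, left_mem_uIcc⟩ : uIcc t0 t))
      exact disjoint_left.1 (h2 F.2 hF0 hne) hm hF0'
    exact e ▸ hF (mem_univ ⟨t, right_mem_uIcc⟩)
  refine (h3 F0 hF0).2.2 (Subset.antisymm (h3 F0 hF0).2.1 (hd.trans ?_))
  exact closure_minimal (image_subset_iff.2 hall) (h3 F0 hF0).1

noncomputable def g (x : ℝ) : ℝ × ℝ := (x, Real.sin x⁻¹)

def T : Set (ℝ × ℝ) := {p | (0 < p.1 ∧ p.1 ≤ 1 ∧ p.2 = Real.sin p.1⁻¹) ∨ (p.1 = 0 ∧ p.2 ∈ Icc (-1) 1)}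

lemma g_cont {x : ℝ} (hx : 0 < x) : ContinuousAt g x :=
  continuousAt_id.prodMk (Real.continuous_sin.continuousAt.comp (continuousAt_inv₀ hx.ne'))

lemma osc {y : ℝ} (hy : y ∈ Icc (-1 : ℝ) 1) {a : ℝ} (ha : 0 < a) :
    ∃ x ∈ Ioo 0 a, Real.sin x⁻¹ = y := by
  obtain ⟨n, hn⟩ := exists_nat_gt (a⁻¹ + 2)
  have h1 := Real.neg_pi_div_two_le_arcsin y
  have h2 := Real.pi_gt_three
  have h3 := Real.pi_lt_four
  have h4 : (0 : ℝ) ≤ n := Nat.cast_nonneg n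
  have h5 : a⁻¹ < Real.arcsin y + n * (2 * Real.pi) := by nlinarith
  have h6 : 0 < a⁻¹ := inv_pos.2 ha
  refine ⟨(Real.arcsin y + n * (2 * Real.pi))⁻¹, ⟨inv_pos.2 (h6.trans h5), ?_⟩, ?_⟩
  · exact inv_lt_of_inv_lt₀ ha h5
  · rw [inv_inv, Real.sin_add_nat_mul_two_pi, Real.sin_arcsin hy.1 hy.2]

lemma dense_g {a b : ℝ} (ha : 0 ≤ a) (hab : a < b) {p : ℝ × ℝ} (hp : p ∈ T) (h : p.1 ∈ Icc a b) :
    p ∈ closure (g '' Ioo a b) := by
  rcases hp with ⟨h1, -, h3⟩ | ⟨h1, h3⟩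
  · have e : p = g p.1 := Prod.ext rfl h3
    rw [e]
    refine (g_cont h1).continuousWithinAt.mem_closure_image ?_
    rwa [closure_Ioo hab.ne]
  · have ha0 : a = 0 := le_antisymm (h1 ▸ h.1) ha
    subst ha0
    refine Metric.mem_closure_iff.2 fun ε hε => ?_
    obtain ⟨x, hx, hx'⟩ := osc h3 (lt_min hε hab)
    refine ⟨g x, ⟨x, ⟨hx.1, hx.2.trans_le (min_le_right _ _)⟩, rfl⟩, ?_⟩
    rw [Prod.dist_eq, max_lt_iff]
    refine ⟨?_, ?_⟩
    · rw [h1]
      show dist 0 x < ε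
      rw [dist_comm, Real.dist_eq, sub_zero, abs_of_pos hx.1]
      exact hx.2.trans_le (min_le_left _ _)
    · show dist p.2 (Real.sin x⁻¹) < ε
      rw [hx', dist_self]; exact hε

lemma T_fst {p : ℝ × ℝ} (hp : p ∈ T) : p.1 ∈ Icc (0 : ℝ) 1 := by
  rcases hp with ⟨h1, h2, -⟩ | ⟨h1, -⟩
  · exact ⟨h1.le, h2⟩
  · rw [h1]; exact ⟨le_rfl, zero_le_one⟩

lemma T_snd {p : ℝ × ℝ} (hp : p ∈ T) : p.2 ∈ Icc (-1 : ℝ) 1 := by
  rcases hp with ⟨-, -, h3⟩ | ⟨-, h3⟩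
  · rw [h3]; exact Real.sin_mem_Icc _
  · exact h3

lemma T_pos {p : ℝ × ℝ} (hp : p ∈ T) (h : 0 < p.1) : p = g p.1 := by
  rcases hp with ⟨-, -, h3⟩ | ⟨h1, -⟩
  · exact Prod.ext rfl h3
  · exact absurd h1 h.ne'

lemma T_closed : IsClosed T := by
  refine isClosed_of_closure_subset fun p hp => ?_
  have h1 : p.1 ∈ Icc (0 : ℝ) 1 :=
    closure_minimal (fun q hq => T_fst hq) (isClosed_Icc.preimage continuous_fst) hp
  have h2 : p.2 ∈ Icc (-1 : ℝ) 1 :=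
    closure_minimal (fun q hq => T_snd hq) (isClosed_Icc.preimage continuous_snd) hp
  rcases h1.1.eq_or_lt with h0 | h0
  · exact Or.inr ⟨h0.symm, h2⟩
  refine Or.inl ⟨h0, h1.2, ?_⟩
  have hne : (𝓝[T] p).NeBot := mem_closure_iff_nhdsWithin_neBot.1 hp
  have t1 : Tendsto (fun q : ℝ × ℝ => g q.1) (𝓝[T] p) (𝓝 (g p.1)) :=
    ((g_cont h0).tendsto.comp continuous_fst.continuousAt).mono_left nhdsWithin_le_nhds
  have t2 : Tendsto (fun q : ℝ × ℝ => g q.1) (𝓝[T] p) (𝓝 p) := by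
    refine (tendsto_id.mono_left nhdsWithin_le_nhds).congr' ?_
    filter_upwards [self_mem_nhdsWithin, mem_nhdsWithin_of_mem_nhds
      ((isOpen_lt continuous_const continuous_fst).mem_nhds h0)] with q hq hq'
    exact T_pos hq hq'
  exact congrArg Prod.snd (tendsto_nhds_unique t2 t1)

lemma T_compact : IsCompact T :=
  ((isCompact_Icc (a := (0 : ℝ)) (b := 1)).prod (isCompact_Icc (a := (-1 : ℝ)) (b := 1))).of_isClosed_subset
    T_closed fun _ hp => ⟨T_fst hp, T_snd hp⟩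

lemma T_conn : IsConnected T := by
  refine IsConnected.subset_closure (s := g '' Ioo 0 1) ((isConnected_Ioo zero_lt_one).image _
    fun x hx => (g_cont hx.1).continuousWithinAt) ?_ fun p hp => dense_g le_rfl zero_lt_one hp (T_fst hp)
  rintro _ ⟨x, hx, rfl⟩
  exact Or.inl ⟨hx.1, hx.2.le, rfl⟩

lemma sub {C : Set (ℝ × ℝ)} (hT : C ⊆ T) (h1 : IsCompact C) (h2 : IsConnected C)
    (h3 : C.Nontrivial) (𝓕 : Set (Set (ℝ × ℝ))) (f1 : 𝓕.Countable) (f2 : 𝓕.PairwiseDisjoint id)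
    (f3 : ∀ F ∈ 𝓕, IsClosed F ∧ F ⊆ C ∧ F ≠ C) :
    ¬ {p ∈ C | ∃ V, IsOpen V ∧ p ∈ V ∧
      ¬ IsPreconnected (connectedComponentIn (C ∩ V) p \ {p})} ⊆ ⋃₀ 𝓕 := by
  obtain ⟨a, b, e⟩ : ∃ a b, Prod.fst '' C = Icc a b :=
    ⟨_, _, eq_Icc_of_connected_compact (h2.image _ continuous_fst.continuousOn)
      (h1.image continuous_fst)⟩
  have hm : ∀ p ∈ C, p.1 ∈ Icc a b := fun p hp => e ▸ mem_image_of_mem _ hp
  obtain ⟨p, hp, q, hq, hpq⟩ := h3
  have hab : a ≤ b := (hm p hp).1.trans (hm p hp).2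
  have ha : 0 ≤ a := by
    obtain ⟨r, hr, hr'⟩ : a ∈ Prod.fst '' C := e ▸ left_mem_Icc.2 hab
    exact hr' ▸ (T_fst (hT hr)).1
  rcases hab.eq_or_lt with rfl | hab
  · have h0 : ∀ r ∈ C, r.1 = a := fun r hr => le_antisymm (hm r hr).2 (hm r hr).1
    obtain ⟨c, d, e'⟩ : ∃ c d, Prod.snd '' C = Icc c d :=
      ⟨_, _, eq_Icc_of_connected_compact (h2.image _ continuous_snd.continuousOn)
        (h1.image continuous_snd)⟩
    have hm' : ∀ p ∈ C, p.2 ∈ Icc c d := fun p hp => e' ▸ mem_image_of_mem _ hp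
    have hcd : c < d := by
      by_contra hcd
      refine hpq (Prod.ext ((h0 p hp).trans (h0 q hq).symm) ?_)
      have := hm' p hp
      have := hm' q hq
      simp only [mem_Icc, not_lt] at *
      linarith
    have hcont : Continuous fun y : ℝ => (a, y) := by fun_prop
    refine key continuous_snd (h := fun y => (a, y)) hcd hcont.continuousOn (fun _ => rfl) ?_ ?_
      𝓕 f1 f2 f3
    · ext r
      constructor
      · rintro ⟨hr, hr'⟩
        exact ⟨r.2, hr', Prod.ext (h0 r hr).symm rfl⟩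
      · rintro ⟨y, hy, rfl⟩
        obtain ⟨r, hr, hr'⟩ : y ∈ Prod.snd '' C := e' ▸ Ioo_subset_Icc_self hy
        have : r = (a, y) := Prod.ext (h0 r hr) hr'
        exact ⟨show (a, y) ∈ C from this ▸ hr, hy⟩
    · intro r hr
      have : r = (a, r.2) := Prod.ext (h0 r hr) rfl
      rw [this]
      refine hcont.continuousWithinAt.mem_closure_image ?_
      rw [closure_Ioo hcd.ne]
      exact hm' r hr
  · refine key continuous_fst (h := g) hab
      (fun x hx => (g_cont (ha.trans_lt hx.1)).continuousWithinAt) (fun _ => rfl) ?_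
      (fun r hr => dense_g ha hab (hT hr) (hm r hr)) 𝓕 f1 f2 f3
    ext r
    constructor
    · rintro ⟨hr, hr'⟩
      exact ⟨r.1, hr', (T_pos (hT hr) (ha.trans_lt hr'.1)).symm⟩
    · rintro ⟨x, hx, rfl⟩
      obtain ⟨r, hr, hr'⟩ : x ∈ Prod.fst '' C := e ▸ Ioo_subset_Icc_self hx
      have : r = g x := by
        rw [← hr']
        exact T_pos (hT hr) (hr' ▸ ha.trans_lt hx.1)
      exact ⟨this ▸ hr, hx⟩

lemma not_joined : ¬ JoinedIn T (0, 0) (g 1) := by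
  rintro ⟨γ, hγ⟩
  have hT : ∀ t, γ.extend t ∈ T := fun t => by
    obtain ⟨s, hs⟩ : γ.extend t ∈ range γ := γ.extend_range ▸ mem_range_self t
    exact hs ▸ hγ s
  have hc : Continuous γ.extend := γ.continuous_extend
  have hcl : IsClopen {t | (γ.extend t).1 = 0} := by
    refine ⟨isClosed_eq (continuous_fst.comp hc) continuous_const, Metric.isOpen_iff.2 ?_⟩
    intro t0 ht0
    obtain ⟨δ, hδ, hb⟩ := Metric.continuous_iff.1 hc t0 1 one_pos
    refine ⟨δ, hδ, fun t ht => ?_⟩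
    by_contra hx
    have hx' : 0 < (γ.extend t).1 := lt_of_le_of_ne (T_fst (hT t)).1 (Ne.symm hx)
    have hpre := (convex_ball t0 δ).isPreconnected.image (fun s => (γ.extend s).1)
      (continuous_fst.comp hc).continuousOn
    have hI := hpre.Icc_subset ⟨t0, mem_ball_self hδ, ht0⟩ ⟨t, ht, rfl⟩
    have : ∀ y ∈ Icc (-1 : ℝ) 1, |y - (γ.extend t0).2| < 1 := fun y hy => by
      obtain ⟨u, hu, hu'⟩ := osc hy hx'
      obtain ⟨s, hs, hs'⟩ := hI (Ioo_subset_Icc_self hu)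
      have e := T_pos (hT s) (by rw [show (γ.extend s).1 = u from hs']; exact hu.1)
      have h1 := hb s hs
      rw [Prod.dist_eq, max_lt_iff] at h1
      have h2 : (γ.extend s).2 = y := by
        rw [e, show (γ.extend s).1 = u from hs']; exact hu'
      rw [← h2]; exact h1.2
    have h1 := abs_lt.1 (this 1 ⟨by norm_num, le_rfl⟩)
    have h2 := abs_lt.1 (this (-1) ⟨le_rfl, by norm_num⟩)
    linarith [h1.2, h2.1]
  have := hcl.eq_univ ⟨0, by simp⟩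
  have h1 : (1 : ℝ) ∈ {t | (γ.extend t).1 = 0} := this ▸ mem_univ _
  have h2 : (γ.extend 1).1 = 0 := h1
  rw [γ.extend_one] at h2
  exact one_ne_zero h2

end Pool.Agent.H.MP_a3a891_gt
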